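import Pool.Agent.Y43.SZ.Top

/-! Job SZ-BAL of helper465. -/

set_option autoImplicit false

namespace Pool.Agent.Y43.SZ

open Pool.Agent.Y465.SZ

section

variable {E : Type} [Fintype E] [DecidableEq E] {mate : E × Fin 4 → E × Fin 4}
  {col : E × Fin 4 → Bool}

omit [Fintype E] in
theorem tog_tog (K : Finset E) (e : E) : tog (tog K e) e = K := by
  ext x
  rw [mem_tog, mem_tog]
  by_cases hx : x = e
  · subst hx
    by_cases hxK : x ∈ K
    · simp [hxK, mem_tog]
    · simp [hxK, mem_tog]
  · simp [hx, mem_tog]

omit [Fintype E] in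
theorem symmDiff_tog {K K' : Finset E} {e : E} (he : e ∈ symmDiff K K') :
    symmDiff (tog K e) K' = (symmDiff K K').erase e := by
  ext x
  rw [Finset.mem_erase, Finset.mem_symmDiff, Finset.mem_symmDiff, mem_tog]
  rw [Finset.mem_symmDiff] at he
  by_cases hx : x = e
  · subst hx
    by_cases hxK : x ∈ K <;> by_cases hxK' : x ∈ K' <;> simp_all
  · simp [hx]

omit [Fintype E] [DecidableEq E] in
theorem zero_of_sum (S : Finset E) (c d : E → ℤ) (hd : ∀ g ∈ S, d g ≤ 0) (κ : ℤ) (hκ : κ ≠ 0)
    (hc : ∀ g ∈ S, c g = 0 ∨ c g = κ) (hsum : ∑ g ∈ S, c g * d g = 0) :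
    ∀ g ∈ S, c g = κ → d g = 0 := by
  classical
  have h1 : ∑ g ∈ S, c g * d g = κ * ∑ g ∈ S, if c g = κ then d g else 0 := by
    rw [Finset.mul_sum]
    apply Finset.sum_congr rfl
    intro g hg
    split_ifs with h
    · rw [h]
    · rw [(hc g hg).resolve_right h, zero_mul, mul_zero]
  rw [h1] at hsum
  have h2 := (mul_eq_zero.1 hsum).resolve_left hκ
  rw [Finset.sum_eq_zero_iff_of_nonpos] at h2
  · intro g hg hcg
    have h3 := h2 g hg
    rwa [if_pos hcg] at h3
  · intro g hg
    split_ifs
    · exact hd g hg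
    · exact le_rfl

omit [Fintype E] [DecidableEq E] in
theorem prod_hd_tl (t : E → Bool) (e : E) (u v : E × Fin 4 → Bool) :
    (bz (u (e, 2)) - bz (u (e, 0))) * (bz (v (e, 2)) - bz (v (e, 0))) =
      (bz (u (hd t e)) - bz (u (tl t e))) * (bz (v (hd t e)) - bz (v (tl t e))) := by
  unfold hd tl pt
  cases t e
  · simp only [Bool.false_eq_true, if_false, Bool.not_false, if_true]
    ring
  · simp only [Bool.not_true, Bool.false_eq_true, if_false, if_true]

theorem osg' (hO : S_OSG) (hD : Dia mate col) (t : E → Bool) {K K' : Finset E}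
    {u v : E × Fin 4 → Bool} (hu : Inv mate K u) (hv : Inv mate K' v) :
    ∑ g ∈ symmDiff K K', ((if col (g, 0) then (1 : ℤ) else -1) *
      (bz (u (hd t g)) - bz (u (tl t g)))) * (bz (v (hd t g)) - bz (v (tl t g))) = 0 := by
  have h := hO E mate col hD.mm hD.cm hD.ca K K' u v hu hv
  rw [← h]
  apply Finset.sum_congr rfl
  intro g _
  rw [mul_assoc, mul_assoc, prod_hd_tl t]

omit [Fintype E] [DecidableEq E] in
theorem same_hd_tl {R : E × Fin 4 → E × Fin 4 → Prop} (hR : ∀ x y, R x y → R y x)
    (t : E → Bool) (e : E) : R (hd t e) (tl t e) ↔ R (e, 0) (e, 2) := by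
  unfold hd tl pt
  cases t e
  · simp only [Bool.false_eq_true, if_false, Bool.not_false, if_true]
  · simp only [Bool.not_true, Bool.false_eq_true, if_false, if_true]
    exact ⟨hR _ _, hR _ _⟩

theorem same02 (K : Finset E) (t : E → Bool) (e : E) :
    Same mate K (hd t e) (tl t e) ↔ Same mate K (e, 0) (e, 2) :=
  same_hd_tl (R := Same mate K) (fun _ _ h => h.symm) t e

/-- crossings of type A have the same kind -/
theorem kinds_a (hD : Dia mate col) (hO : Ori mate) (t : E → Bool) {K S : Finset E}
    (hSK : (∀ e ∈ S, e ∉ K) ∨ ∀ e ∈ S, e ∈ K)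
    (hT : TA (fun p q => Same mate K (pt p) (pt q)) t S) {e f : E} (he : e ∈ S) (hf : f ∈ S) :
    col (e, 0) = col (f, 0) := by
  by_cases hef : e = f
  · rw [hef]
  have h1 : ¬ Same mate K (e, 0) (e, 2) := by
    rw [← same02 K t e]
    exact hT.2 e he
  have h1f : ¬ Same mate K (f, 0) (f, 2) := by
    rw [← same02 K t f]
    exact hT.2 f hf
  have h2 : Same mate (tog K e) (e, 0) (e, 2) := (hO K e).2 h1
  have h3 : Same mate (tog K e) (f, 0) (f, 2) := by
    rw [← same02 (tog K e) t f]
    intro g hg
    have h4 : Inv mate K g := (inv_tog (h2 g hg)).1 hg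
    have h5 : g (hd t e) = g (tl t e) := ((same02 (tog K e) t e).2 h2) g hg
    have h6 : g (hd t e) = g (hd t f) := (hT.1 e he f hf).1 g h4
    have h7 : g (tl t e) = g (tl t f) := (hT.1 e he f hf).2 g h4
    rw [← h6, ← h7, h5]
  have h4 := hD.pl (tog K e) e f hef h2 h3 (by rw [tog_tog]; exact h1f)
  have h5 : decide (e ∈ tog K e) = !decide (e ∈ K) := by
    by_cases hK : e ∈ K <;> simp [mem_tog, hK]
  have h6 : decide (f ∈ tog K e) = decide (f ∈ K) := by
    have hfe : ¬ f = e := fun h => hef h.symm
    by_cases hK : f ∈ K <;> simp [mem_tog, hK, hfe]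
  have h7 : decide (f ∈ K) = decide (e ∈ K) := by
    rcases hSK with h | h
    · simp [h e he, h f hf]
    · simp [h e he, h f hf]
  rw [h5, h6, h7] at h4
  revert h4
  cases col (e, 0) <;> cases col (f, 0) <;> cases decide (e ∈ K) <;> simp

omit [Fintype E] in
/-- crossings of type C of the same kind -/
theorem kinds_c (hD : Dia mate col) {K S : Finset E}
    (hSK : (∀ e ∈ S, e ∉ K) ∨ ∀ e ∈ S, e ∈ K)
    (hT : ∀ e ∈ S, Same mate K (e, 0) (e, 2)) {e f : E} (he : e ∈ S) (hf : f ∈ S)
    (hef : e ≠ f) (hk : col (e, 0) = col (f, 0)) : Same mate (tog K e) (f, 0) (f, 2) := by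
  by_contra hn
  have h4 := hD.pl K e f hef (hT e he) (hT f hf) hn
  have h7 : decide (f ∈ K) = decide (e ∈ K) := by
    rcases hSK with h | h
    · simp [h e he, h f hf]
    · simp [h e he, h f hf]
  rw [h7, hk] at h4
  exact h4 rfl

end

theorem bal : S_BAL := by
  intro hO E _ _ mate col hD hOri s t K K' v hv hSK hT hv2
  classical
  have hd0 : ∀ g ∈ symmDiff K K', bz (v (hd t g)) - bz (v (tl t g)) ≤ 0 := by
    intro g hg
    have h1 := hv2 g hg
    revert h1
    cases v (hd t g) <;> cases v (tl t g) <;> simp [bz]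
  have hconc : ∀ g, bz (v (hd t g)) - bz (v (tl t g)) = 0 → v (hd t g) = v (tl t g) := by
    intro g
    cases v (hd t g) <;> cases v (tl t g) <;> simp [bz]
  have hsg : ∀ b : Bool, (if b = true then (1 : ℤ) else -1) ≠ 0 := by
    intro b
    cases b <;> simp
  rcases hT with hT | hT
  · intro e0 he0
    have hu : Inv mate K (fun h' => decide (Same mate K (hd t e0) h')) := inv_class K (hd t e0)
    have h1 := osg' hO hD t hu hv
    apply hconc
    have hc : ∀ g ∈ symmDiff K K', (if col (g, 0) = true then (1 : ℤ) else -1) *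
        (bz (decide (Same mate K (hd t e0) (hd t g))) -
          bz (decide (Same mate K (hd t e0) (tl t g)))) =
        (if col (e0, 0) = true then (1 : ℤ) else -1) := by
      intro g hg
      have h2 : Same mate K (hd t e0) (hd t g) := (hT.1 e0 he0 g hg).1
      have h3 : ¬ Same mate K (hd t e0) (tl t g) := fun h => hT.2 g hg (h2.symm.trans h)
      rw [decide_eq_true h2, decide_eq_false h3, kinds_a hD hOri t hSK hT hg he0]
      simp [bz]
    exact zero_of_sum _ _ _ hd0 _ (hsg _) (fun g hg => Or.inr (hc g hg)) h1 e0 he0 (hc e0 he0)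
  · obtain ⟨hR, hk1, hk0, hR1⟩ := hT
    have hS02 : ∀ e ∈ symmDiff K K', Same mate K (e, 0) (e, 2) := by
      intro e he
      rw [← same02 K t e]
      exact (hR e he e he).2
    have main : ∀ e ∈ symmDiff K K', ∀ f ∈ symmDiff K K', col (e, 0) ≠ col (f, 0) →
        v (hd t f) = v (tl t f) := by
      intro e he f hf hef
      have hu : Inv mate (tog K e) (fun h' => decide (Same mate (tog K e) (hd t e) h')) :=
        inv_class (tog K e) (hd t e)
      have h1 := osg' hO hD t hu hv
      rw [symmDiff_tog he] at h1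
      apply hconc
      have hnot : ¬ Same mate (tog K e) (hd t e) (tl t e) := by
        rw [same02, hOri K e, not_not]
        exact hS02 e he
      have hdiff : ∀ g ∈ symmDiff K K', col (e, 0) ≠ col (g, 0) →
          (if col (g, 0) = true then (1 : ℤ) else -1) *
          (bz (decide (Same mate (tog K e) (hd t e) (hd t g))) -
            bz (decide (Same mate (tog K e) (hd t e) (tl t g)))) =
          (if col (f, 0) = true then (1 : ℤ) else -1) * (if s = true then 1 else -1) := by
        intro g hg heg
        have hgf : col (g, 0) = col (f, 0) := by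
          revert heg hef
          cases col (e, 0) <;> cases col (g, 0) <;> cases col (f, 0) <;> simp
        obtain ⟨h2, h3⟩ := hR1 e he g hg heg
        rw [hgf]
        congr 1
        cases s
        · have h2' : Same mate (tog K e) (hd t g) (tl t e) := h2
          have h3' : Same mate (tog K e) (tl t g) (hd t e) := h3
          have h4 : ¬ Same mate (tog K e) (hd t e) (hd t g) := fun h => hnot (h.trans h2')
          rw [decide_eq_false h4, decide_eq_true h3'.symm]
          simp [bz]
        · have h2' : Same mate (tog K e) (hd t g) (hd t e) := h2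
          have h3' : Same mate (tog K e) (tl t g) (tl t e) := h3
          have h4 : ¬ Same mate (tog K e) (hd t e) (tl t g) := fun h => hnot (h.trans h3')
          rw [decide_eq_true h2'.symm, decide_eq_false h4]
          simp [bz]
      have hsame : ∀ g ∈ symmDiff K K', g ≠ e → col (e, 0) = col (g, 0) →
          (if col (g, 0) = true then (1 : ℤ) else -1) *
          (bz (decide (Same mate (tog K e) (hd t e) (hd t g))) -
            bz (decide (Same mate (tog K e) (hd t e) (tl t g)))) = 0 := by
        intro g hg hge heg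
        have h2 : Same mate (tog K e) (hd t g) (tl t g) := by
          rw [same02]
          exact kinds_c hD hSK hS02 he hg (fun h => hge h.symm) heg
        have h3 : decide (Same mate (tog K e) (hd t e) (hd t g)) =
            decide (Same mate (tog K e) (hd t e) (tl t g)) :=
          decide_eq_decide.2 ⟨fun h => h.trans h2, fun h => h.trans h2.symm⟩
        rw [h3, sub_self, mul_zero]
      have hκ : (if col (f, 0) = true then (1 : ℤ) else -1) * (if s = true then 1 else -1) ≠ 0 :=
        mul_ne_zero (hsg _) (hsg _)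
      have hfe : f ≠ e := by
        intro h
        rw [h] at hef
        exact hef rfl
      refine zero_of_sum ((symmDiff K K').erase e) _ _
        (fun g hg => hd0 g (Finset.mem_of_mem_erase hg)) _ hκ (fun g hg => ?_) h1 f
        (Finset.mem_erase.2 ⟨hfe, hf⟩) (hdiff f hf hef)
      obtain ⟨hge, hgS⟩ := Finset.mem_erase.1 hg
      by_cases heg : col (e, 0) = col (g, 0)
      · exact Or.inl (hsame g hgS hge heg)
      · exact Or.inr (hdiff g hgS heg)
    intro f hf
    obtain ⟨e1, he1, hk1⟩ := hk1
    obtain ⟨e0, he0, hk0⟩ := hk0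
    have hk1' : col (e1, 0) = true := hk1
    have hk0' : col (e0, 0) = false := hk0
    by_cases hcf : col (f, 0) = true
    · exact main e0 he0 f hf (by rw [hk0', hcf]; simp)
    · exact main e1 he1 f hf (by rw [hk1']; exact fun h => hcf h.symm)

end Pool.Agent.Y43.SZ
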