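import Pool.Agent.Y43.SZ.Top

/-! Job SZ-DEG of helper465. -/

set_option autoImplicit false

namespace Pool.Agent.Y43.SZ

open Pool.Agent.Y465.SZ

section

variable {E : Type} [Fintype E] [DecidableEq E] {mate : E × Fin 4 → E × Fin 4}

omit [Fintype E] in
theorem tog_insert {K : Finset E} {e : E} (he : e ∉ K) : tog K e = insert e K := by
  unfold tog
  rw [if_neg he]

theorem inv_union {I S : Finset E} {f : E × Fin 4 → Bool} (hf : Inv mate I f)
    (hS : ∀ e ∈ S, f (e, 0) = f (e, 2)) : Inv mate (I ∪ S) f := by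
  apply inv_congr hf
  intro x hx
  by_cases hxI : x ∈ I
  · exact absurd (Finset.mem_union_left S hxI) (hx.1 hxI)
  · by_cases hxS : x ∈ S
    · exact hS x hxS
    · exact absurd (hx.2 (fun h => (Finset.mem_union.1 h).elim hxI hxS)) hxI

theorem chn1 (hW : WTF mate) (I : Finset E) (f : E × Fin 4 → Bool)
    (hf : Inv mate I f) (S : Finset E) (hSI : ∀ e ∈ S, e ∉ I)
    (hS : ∀ e ∈ S, f (e, 0) = false ∧ f (e, 2) = false) :
    wt mate I f ≤ wt mate (I ∪ S) f ∧
      (wt mate (I ∪ S) f = wt mate I f → ∀ g, Inv mate I g → Inv mate (I ∪ S) g) := by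
  induction S using Finset.induction_on with
  | empty =>
    rw [Finset.union_empty]
    exact ⟨le_rfl, fun _ g hg => hg⟩
  | insert e S0 he ih =>
    have hS0 : ∀ x ∈ S0, f (x, 0) = false ∧ f (x, 2) = false :=
      fun x hx => hS x (Finset.mem_insert_of_mem hx)
    obtain ⟨h1, h2⟩ := ih (fun x hx => hSI x (Finset.mem_insert_of_mem hx)) hS0
    have heK : e ∉ I ∪ S0 := by
      rw [Finset.mem_union]
      rintro (h | h)
      · exact hSI e (Finset.mem_insert_self e S0) h
      · exact he h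
    have hfK : Inv mate (I ∪ S0) f := inv_union hf (fun x hx => by rw [(hS0 x hx).1, (hS0 x hx).2])
    obtain ⟨h3, h4⟩ := hS e (Finset.mem_insert_self e S0)
    rw [Finset.union_insert]
    by_cases hs : Same mate (I ∪ S0) (e, 0) (e, 2)
    · have h5 := hW.s1 (I ∪ S0) e f heK hfK h3 h4 hs
      rw [h5]
      refine ⟨h1, fun h6 g hg => ?_⟩
      have h7 := h2 h6 g hg
      rw [← tog_insert heK]
      exact (inv_tog (hs g h7)).2 h7
    · have h5 := hW.m1 (I ∪ S0) e f heK hfK h3 h4 hs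
      rw [h5]
      exact ⟨by omega, fun h6 => by omega⟩

theorem chnx (hJ : JOI mate) (hW : WTF mate) (I : Finset E) (f : E × Fin 4 → Bool)
    (hf : Inv mate I f) (S : Finset E) (hSI : ∀ e ∈ S, e ∉ I)
    (hS : ∀ e ∈ S, f (e, 0) = true ∧ f (e, 2) = true) :
    wt mate I f ≤ wt mate (I ∪ S) f ∧
      (wt mate (I ∪ S) f = wt mate I f → ∀ g, Inv mate (I ∪ S) g → Inv mate I g) := by
  induction S using Finset.induction_on with
  | empty =>
    rw [Finset.union_empty]
    exact ⟨le_rfl, fun _ g hg => hg⟩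
  | insert e S0 he ih =>
    have hS0 : ∀ x ∈ S0, f (x, 0) = true ∧ f (x, 2) = true :=
      fun x hx => hS x (Finset.mem_insert_of_mem hx)
    obtain ⟨h1, h2⟩ := ih (fun x hx => hSI x (Finset.mem_insert_of_mem hx)) hS0
    have heK : e ∉ I ∪ S0 := by
      rw [Finset.mem_union]
      rintro (h | h)
      · exact hSI e (Finset.mem_insert_self e S0) h
      · exact he h
    have hfK : Inv mate (I ∪ S0) f := inv_union hf (fun x hx => by rw [(hS0 x hx).1, (hS0 x hx).2])
    obtain ⟨h3, h4⟩ := hS e (Finset.mem_insert_self e S0)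
    rw [Finset.union_insert]
    by_cases hs : Same mate (I ∪ S0) (e, 0) (e, 2)
    · have h5 := hW.sx (I ∪ S0) e f heK hfK h3 h4 hs
      rw [h5]
      exact ⟨by omega, fun h6 => by omega⟩
    · have h5 := hW.mx (I ∪ S0) e f heK hfK h3 h4 hs
      rw [h5]
      refine ⟨h1, fun h6 g hg => ?_⟩
      rw [← tog_insert heK] at hg
      exact h2 h6 g ((hJ (I ∪ S0) e hs).1 g hg)

theorem chn (hJ : JOI mate) (hW : WTF mate) : CHN mate where
  c1 := by
    intro I K f hIK hf h
    have h1 := chn1 hW I f hf (K \ I) (fun e he => (Finset.mem_sdiff.1 he).2)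
      (fun e he => h e (Finset.mem_sdiff.1 he).1 (Finset.mem_sdiff.1 he).2)
    rwa [Finset.union_sdiff_of_subset hIK] at h1
  cx := by
    intro I K f hIK hf h
    have h1 := chnx hJ hW I f hf (K \ I) (fun e he => (Finset.mem_sdiff.1 he).2)
      (fun e he => h e (Finset.mem_sdiff.1 he).1 (Finset.mem_sdiff.1 he).2)
    rwa [Finset.union_sdiff_of_subset hIK] at h1

omit [Fintype E] [DecidableEq E] in
theorem both_ends {f : E × Fin 4 → Bool} {t : E → Bool} {e : E} {b : Bool}
    (h1 : f (hd t e) = b) (h2 : f (tl t e) = b) : f (e, 0) = b ∧ f (e, 2) = b := by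
  unfold hd pt at h1
  unfold tl pt at h2
  cases ht : t e
  · rw [ht] at h1 h2
    exact ⟨h1, h2⟩
  · rw [ht] at h1 h2
    exact ⟨h2, h1⟩

theorem mid (hW : WTF mate) (hC : CHN mate) (t : E → Bool) (x y : Cfg mate) (h : LP t x y) :
    ∃ K0 : Finset E, Inv mate K0 x.f ∧ Inv mate K0 y.f ∧
      (x.w ≤ wt mate K0 x.f ∧ (wt mate K0 x.f = x.w → ∀ g, Inv mate x.K g → Inv mate K0 g)) ∧
      (wt mate K0 y.f ≤ y.w ∧ (y.w = wt mate K0 y.f → ∀ g, Inv mate y.K g → Inv mate K0 g)) ∧
      wt mate K0 y.f = wt mate K0 x.f + 2 * (cn mate K0 (fun h => y.f h && !x.f h) : ℤ) := by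
  obtain ⟨hK, hfg, hL⟩ := h
  let K0 : Finset E := x.K ∪ (y.K \ x.K).filter fun e => x.f (tl t e) = false
  have hxK0 : x.K ⊆ K0 := Finset.subset_union_left
  have hK0y : K0 ⊆ y.K := by
    apply Finset.union_subset hK
    intro e he
    exact (Finset.mem_sdiff.1 (Finset.mem_filter.1 he).1).1
  have hdual : ∀ e ∈ K0, e ∉ x.K → x.f (e, 0) = false ∧ x.f (e, 2) = false := by
    intro e he hex
    have h1 : e ∈ (y.K \ x.K).filter fun e => x.f (tl t e) = false :=
      (Finset.mem_union.1 he).resolve_left hex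
    obtain ⟨h2, h3⟩ := Finset.mem_filter.1 h1
    exact both_ends (hL e (Finset.mem_sdiff.1 h2).1 hex).1 h3
  have hleaf : ∀ e ∈ y.K, e ∉ K0 → y.f (e, 0) = true ∧ y.f (e, 2) = true := by
    intro e he heK0
    have hex : e ∉ x.K := fun h => heK0 (hxK0 h)
    obtain ⟨h1, h2, h3⟩ := hL e he hex
    have h4 : x.f (tl t e) = true := by
      by_contra h5
      rw [Bool.not_eq_true] at h5
      exact heK0 (Finset.mem_union_right _ (Finset.mem_filter.2
        ⟨Finset.mem_sdiff.2 ⟨he, hex⟩, h5⟩))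
    exact both_ends h2 (by rw [← h3]; exact h4)
  have hxI : Inv mate K0 x.f := by
    apply inv_congr x.inv
    intro e he
    by_cases hex : e ∈ x.K
    · exact absurd (hxK0 hex) (he.1 hex)
    · by_cases heK : e ∈ K0
      · rw [(hdual e heK hex).1, (hdual e heK hex).2]
      · exact absurd (he.2 heK) hex
  have hyI : Inv mate K0 y.f := by
    apply inv_congr y.inv
    intro e he
    by_cases hey : e ∈ y.K
    · rw [(hleaf e hey (he.1 hey)).1, (hleaf e hey (he.1 hey)).2]
    · exact absurd (he.2 (fun h => hey (hK0y h))) hey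
  refine ⟨K0, hxI, hyI, hC.c1 x.K K0 x.f hxK0 x.inv hdual, hC.cx K0 y.K y.f hK0y hyI hleaf,
    hW.lab K0 x.f y.f hxI hyI hfg⟩

theorem deg_of (hW : WTF mate) (hC : CHN mate) : DEG mate where
  two := by
    intro t x y h hne
    obtain ⟨K0, hxI, hyI, ⟨h1, _⟩, ⟨h2, _⟩, h3⟩ := mid hW hC t x y h
    have h4 : cn mate K0 (fun h => y.f h && !x.f h) ≠ 0 := by
      intro h5
      rw [hW.cn0 K0 _ (hyI.and hxI.not)] at h5
      apply hne
      funext a
      have h6 := h5 a
      have h7 := h.2.1 a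
      revert h6 h7
      cases x.f a <;> cases y.f a <;> simp
    have h5 : (1 : ℤ) ≤ (cn mate K0 (fun h => y.f h && !x.f h) : ℤ) := by
      exact_mod_cast Nat.one_le_iff_ne_zero.2 h4
    omega
  star := by
    intro t x y h hw a b ha ha' hb hb'
    obtain ⟨K0, hxI, hyI, ⟨h1, h1'⟩, ⟨h2, h2'⟩, h3⟩ := mid hW hC t x y h
    have hzI : Inv mate K0 (fun h => y.f h && !x.f h) := hyI.and hxI.not
    have hza : (y.f a && !x.f a) = true := by rw [ha, ha']; rfl
    have hzb : (y.f b && !x.f b) = true := by rw [hb, hb']; rfl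
    have h4 : cn mate K0 (fun h => y.f h && !x.f h) ≠ 0 := by
      intro h5
      rw [hW.cn0 K0 _ hzI] at h5
      have h6 := h5 a
      rw [hza] at h6
      exact absurd h6 (by simp)
    have h5 : (1 : ℤ) ≤ (cn mate K0 (fun h => y.f h && !x.f h) : ℤ) := by
      exact_mod_cast Nat.one_le_iff_ne_zero.2 h4
    have h6 : cn mate K0 (fun h => y.f h && !x.f h) = 1 := by
      have : (cn mate K0 (fun h => y.f h && !x.f h) : ℤ) = 1 := by omega
      exact_mod_cast this
    have h7 : Same mate K0 a b := ((hW.cn1 K0 _ hzI).1 h6).2 a b hza hzb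
    exact ⟨fun g hg => h7 g (h1' (by omega) g hg), fun g hg => h7 g (h2' (by omega) g hg)⟩

end

theorem degt : S_DEG := by
  intro E _ _ mate _ hJ hW
  exact ⟨chn hJ hW, deg_of hW (chn hJ hW)⟩

end Pool.Agent.Y43.SZ
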