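import Pool.Agent.Y43.SZ.Deg

/-! Job SZ-LCJ of helper465. -/

set_option autoImplicit false

namespace Pool.Agent.Y43.SZ

open Pool.Agent.Y465.SZ

section

variable {E : Type} [Fintype E] [DecidableEq E] {mate : E × Fin 4 → E × Fin 4}

theorem ind_mul_unique (p q : Cfg mate → Cfg mate → Prop) (x y : Cfg mate)
    [Decidable (∃ z, q x z ∧ p z y)]
    (h : ∀ z z', q x z → p z y → q x z' → p z' y → z = z') :
    (ind p * ind q) y x = if ∃ z, q x z ∧ p z y then 1 else 0 := by
  classical
  rw [ind_mul_apply]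
  split_ifs with h1
  · obtain ⟨z, hz1, hz2⟩ := h1
    have h2 : (Finset.univ.filter fun z : Cfg mate => q x z ∧ p z y) = {z} := by
      ext z'
      rw [Finset.mem_filter, Finset.mem_singleton]
      constructor
      · rintro ⟨_, h3, h4⟩
        exact h z' z h3 h4 hz1 hz2
      · rintro rfl
        exact ⟨Finset.mem_univ _, hz1, hz2⟩
    rw [h2, Finset.card_singleton, Nat.cast_one]
  · have h2 : (Finset.univ.filter fun z : Cfg mate => q x z ∧ p z y) = ∅ := by
      rw [Finset.filter_eq_empty_iff]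
      intro z _ hz
      exact h1 ⟨z, hz⟩
    rw [h2, Finset.card_empty, Nat.cast_zero]

omit [Fintype E] in
/-- label preserving steps do not lower the weight -/
theorem step_le (hW : WTF mate) {K : Finset E} {e : E} {f : E × Fin 4 → Bool} (he : e ∉ K)
    (hf : Inv mate K f) (h : f (e, 0) = f (e, 2)) : wt mate K f ≤ wt mate (insert e K) f := by
  by_cases hs : Same mate K (e, 0) (e, 2)
  · cases h0 : f (e, 0)
    · exact (hW.s1 K e f he hf h0 (h ▸ h0) hs).ge
    · rw [hW.sx K e f he hf h0 (h ▸ h0) hs]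
      omega
  · cases h0 : f (e, 0)
    · rw [hW.m1 K e f he hf h0 (h ▸ h0) hs]
      omega
    · exact (hW.mx K e f he hf h0 (h ▸ h0) hs).ge

omit [Fintype E] in
theorem hd_ft {t : E → Bool} {e e' : E} (h : e' ≠ e) : hd (ft t e) e' = hd t e' := by
  unfold hd ft
  rw [Function.update_of_ne h]

omit [Fintype E] in
theorem tl_ft {t : E → Bool} {e e' : E} (h : e' ≠ e) : tl (ft t e) e' = tl t e' := by
  unfold tl ft
  rw [Function.update_of_ne h]

/-- the condition of the local rule at one crossing -/
def cnd (t : E → Bool) (x y : Cfg mate) (e : E) : Prop :=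
  x.f (hd t e) = false ∧ y.f (hd t e) = true ∧ x.f (tl t e) = y.f (tl t e)

omit [Fintype E] in
theorem cnd_ft {t : E → Bool} {x y : Cfg mate} {e e' : E} (h : e' ≠ e) :
    cnd (ft t e) x y e' ↔ cnd t x y e' := by
  unfold cnd
  rw [hd_ft h, tl_ft h]

omit [Fintype E] in
theorem LP_iff (t : E → Bool) (x y : Cfg mate) : LP t x y ↔
    x.K ⊆ y.K ∧ (∀ h, x.f h = true → y.f h = true) ∧ ∀ e ∈ y.K, e ∉ x.K → cnd t x y e := Iff.rfl

omit [Fintype E] in
/-- labels at the ends 0 and 2 for the four values -/
theorem cnd_values (t : E → Bool) (x y : Cfg mate) (e : E) :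
    cnd t x y e ↔ if t e then x.f (e, 2) = false ∧ y.f (e, 2) = true ∧ x.f (e, 0) = y.f (e, 0)
      else x.f (e, 0) = false ∧ y.f (e, 0) = true ∧ x.f (e, 2) = y.f (e, 2) := by
  unfold cnd hd tl pt
  cases t e
  · simp only [Bool.false_eq_true, if_false, Bool.not_false, if_true]
  · simp only [Bool.not_true, Bool.false_eq_true, if_false, if_true]

omit [Fintype E] in
theorem ft_self (t : E → Bool) (e : E) : ft t e e = !t e := by
  unfold ft
  rw [Function.update_self]

omit [Fintype E] in
/-- with equal labels there are no new crossings -/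
theorem LP_eq (t : E → Bool) (x y : Cfg mate) (h : LP t x y) (hf : x.f = y.f) : x.K = y.K := by
  apply Finset.Subset.antisymm h.1
  intro e he
  by_contra hn
  obtain ⟨h1, h2, _⟩ := h.2.2 e he hn
  rw [hf, h2] at h1
  exact absurd h1 (by simp)

end

theorem lcj : S_LCJ := by
  intro E _ _ mate hO hW hD t e
  classical
  have hexp : (1 + ue e : Op mate) * L0 t * (1 + ue e) =
      L0 t + ue e * L0 t + L0 t * ue e + ue e * L0 t * ue e := by noncomm_ring
  have h0 : (ue e * L0 t * ue e : Op mate) = 0 := by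
    ext y x
    rw [Matrix.mul_apply]
    apply Finset.sum_eq_zero
    intro z _
    by_contra hne
    have h1 := left_ne_zero_of_mul hne
    have h2 := right_ne_zero_of_mul hne
    rw [Matrix.mul_apply] at h1
    obtain ⟨z', _, h3⟩ := Finset.exists_ne_zero_of_sum_ne_zero h1
    have h4 := ind_ne_zero (left_ne_zero_of_mul h3)
    have h5 := ind_ne_zero (right_ne_zero_of_mul h3)
    have h6 := ind_ne_zero h2
    apply h4.1
    apply h5.1.1
    rw [h6.2.1]
    exact Finset.mem_insert_self e x.K
  rw [hexp, h0, add_zero]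
  ext y x
  rw [Matrix.add_apply, Matrix.add_apply]
  have hA : (ue e * L0 t : Op mate) y x = if ∃ z : Cfg mate, (LP t x z ∧ z.w = x.w + 2) ∧
      (e ∉ z.K ∧ y.K = insert e z.K ∧ y.f = z.f ∧ y.w = z.w) then 1 else 0 := by
    apply ind_mul_unique
    rintro z z' _ ⟨h1, h2, h3, _⟩ _ ⟨h4, h5, h6, _⟩
    apply Cfg.ext
    · have h7 : z.K = y.K.erase e := by rw [h2, Finset.erase_insert h1]
      rw [h7, h5, Finset.erase_insert h4]
    · rw [← h3, h6]
  have hB : (L0 t * ue e : Op mate) y x = if ∃ z : Cfg mate,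
      (e ∉ x.K ∧ z.K = insert e x.K ∧ z.f = x.f ∧ z.w = x.w) ∧ (LP t z y ∧ y.w = z.w + 2)
      then 1 else 0 := by
    apply ind_mul_unique
    rintro z z' ⟨_, h2, h3, _⟩ _ ⟨_, h5, h6, _⟩ _
    apply Cfg.ext
    · rw [h2, h5]
    · rw [h3, h6]
  rw [hA, hB]
  unfold L0
  rw [ind_apply, ind_apply]
  by_cases hg : x.K ⊆ y.K ∧ (∀ h, x.f h = true → y.f h = true) ∧ y.w = x.w + 2
  swap
  · -- everything vanishes
    rw [if_neg, if_neg, if_neg, if_neg]
    · simp
    · rintro ⟨z, ⟨_, h2, h3, h4⟩, h5, h6⟩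
      apply hg
      refine ⟨?_, ?_, by omega⟩
      · exact (h2 ▸ Finset.subset_insert e x.K : x.K ⊆ z.K).trans h5.1
      · intro h hh
        exact h5.2.1 h (h3 ▸ hh)
    · rintro ⟨z, ⟨h1, h2⟩, _, h4, h5, h6⟩
      apply hg
      refine ⟨?_, ?_, by omega⟩
      · exact h1.1.trans (h4 ▸ Finset.subset_insert e z.K : z.K ⊆ y.K)
      · intro h hh
        rw [h5]
        exact h1.2.1 h hh
    · exact fun h => hg ⟨h.1.1, h.1.2.1, h.2⟩
    · exact fun h => hg ⟨h.1.1, h.1.2.1, h.2⟩
  obtain ⟨hK, hf, hw⟩ := hg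
  by_cases he : e ∈ y.K ∧ e ∉ x.K
  swap
  · -- the crossing does not change
    have h1 : (LP (ft t e) x y ∧ y.w = x.w + 2) ↔ (LP t x y ∧ y.w = x.w + 2) := by
      rw [LP_iff, LP_iff]
      have h2 : (∀ e' ∈ y.K, e' ∉ x.K → cnd (ft t e) x y e') ↔
          (∀ e' ∈ y.K, e' ∉ x.K → cnd t x y e') := by
        constructor
        · intro h e' h3 h4
          have h6 : e' ≠ e := by
            rintro rfl
            exact he ⟨h3, h4⟩
          exact (cnd_ft h6).1 (h e' h3 h4)
        · intro h e' h3 h4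
          have h6 : e' ≠ e := by
            rintro rfl
            exact he ⟨h3, h4⟩
          exact (cnd_ft h6).2 (h e' h3 h4)
      rw [h2]
    rw [if_congr h1 rfl rfl, if_neg (c := ∃ z : Cfg mate, (LP t x z ∧ z.w = x.w + 2) ∧ _),
      if_neg (c := ∃ z : Cfg mate, (e ∉ x.K ∧ _) ∧ _)]
    · simp
    · rintro ⟨z, ⟨h2, h3, _⟩, h4, _⟩
      apply he
      refine ⟨h4.1 ?_, h2⟩
      rw [h3]
      exact Finset.mem_insert_self e x.K
    · rintro ⟨z, ⟨h2, _⟩, h3, h4, _⟩
      apply he
      refine ⟨?_, fun h => h3 (h2.1 h)⟩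
      rw [h4]
      exact Finset.mem_insert_self e z.K
  obtain ⟨hey, hex⟩ := he
  by_cases hG : ∀ e' ∈ y.K, e' ∉ x.K → e' ≠ e → cnd t x y e'
  swap
  · -- a condition at another crossing fails
    push Not at hG
    obtain ⟨e', h1, h2, h3, h4⟩ := hG
    rw [if_neg, if_neg, if_neg, if_neg]
    · simp
    · rintro ⟨z, ⟨_, h5, h6, _⟩, h7, _⟩
      apply h4
      have h8 : e' ∉ z.K := by
        rw [h5, Finset.mem_insert]
        rintro (h | h)
        · exact h3 h
        · exact h2 h
      have h9 := ((LP_iff t z y).1 h7).2.2 e' h1 h8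
      unfold cnd at h9 ⊢
      rw [h6] at h9
      exact h9
    · rintro ⟨z, ⟨h5, _⟩, _, h7, h8, _⟩
      apply h4
      have h9 : e' ∈ z.K := by
        rw [h7, Finset.mem_insert] at h1
        exact h1.resolve_left h3
      have h10 := ((LP_iff t x z).1 h5).2.2 e' h9 h2
      unfold cnd at h10 ⊢
      rw [h8]
      exact h10
    · exact fun h => h4 (((LP_iff t x y).1 h.1).2.2 e' h1 h2)
    · exact fun h => h4 ((cnd_ft h3).1 (((LP_iff (ft t e) x y).1 h.1).2.2 e' h1 h2))
  have hLt : (LP t x y ∧ y.w = x.w + 2) ↔ cnd t x y e := by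
    constructor
    · exact fun h => ((LP_iff t x y).1 h.1).2.2 e hey hex
    · intro h
      refine ⟨⟨hK, hf, fun e' h1 h2 => ?_⟩, hw⟩
      by_cases h3 : e' = e
      · rw [h3]
        exact h
      · exact hG e' h1 h2 h3
  have hLf : (LP (ft t e) x y ∧ y.w = x.w + 2) ↔ cnd (ft t e) x y e := by
    constructor
    · exact fun h => ((LP_iff (ft t e) x y).1 h.1).2.2 e hey hex
    · intro h
      refine ⟨⟨hK, hf, fun e' h1 h2 => ?_⟩, hw⟩
      by_cases h3 : e' = e
      · rw [h3]
        exact h
      · exact (cnd_ft h3).2 (hG e' h1 h2 h3)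
  rw [if_congr hLt rfl rfl, if_congr hLf rfl rfl]
  by_cases hxy : x.f = y.f
  · -- equal labels
    rw [if_neg, if_neg, if_neg, if_neg]
    · simp
    · rintro ⟨z, ⟨_, _, h3, _⟩, h5, h6⟩
      have h7 := LP_eq t z y h5 (h3.trans hxy)
      have h8 : z = y := Cfg.ext h7 (h3.trans hxy)
      rw [h8] at h6
      omega
    · rintro ⟨z, ⟨h1, h2⟩, _, _, h5, _⟩
      have h7 := LP_eq t x z h1 (hxy.trans h5)
      have h8 : x = z := Cfg.ext h7 (hxy.trans h5)
      rw [h8] at h2
      omega
    · rintro ⟨h1, h2, _⟩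
      rw [hxy, h2] at h1
      exact absurd h1 (by simp)
    · rintro ⟨h1, h2, _⟩
      rw [hxy, h2] at h1
      exact absurd h1 (by simp)
  · have hAiff : (∃ z : Cfg mate, (LP t x z ∧ z.w = x.w + 2) ∧
        (e ∉ z.K ∧ y.K = insert e z.K ∧ y.f = z.f ∧ y.w = z.w)) ↔ y.f (e, 0) = y.f (e, 2) := by
      constructor
      · rintro ⟨z, _, h3, h4, h5, _⟩
        have h6 : Inv mate z.K y.f := h5 ▸ z.inv
        exact (inv_const y.inv h6 hey h3 2).symm
      · intro h
        have h1 : Inv mate (y.K.erase e) y.f := by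
          apply inv_congr y.inv
          intro e' he'
          by_cases h2 : e' = e
          · rw [h2]
            exact h
          · exfalso
            rw [Finset.mem_erase] at he'
            simp only [h2, ne_eq, not_false_eq_true, true_and] at he'
            exact (iff_not_self he').elim
        let z : Cfg mate := ⟨y.K.erase e, y.f, h1⟩
        have h2 : LP t x z := by
          refine ⟨?_, hf, ?_⟩
          · intro a ha
            refine Finset.mem_erase.2 ⟨?_, hK ha⟩
            rintro rfl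
            exact hex ha
          · intro e' h3 h4
            exact hG e' (Finset.mem_of_mem_erase h3) h4 (Finset.ne_of_mem_erase h3)
        have h3 : x.w + 2 ≤ z.w := hD.two t x z h2 hxy
        have h4 : z.w ≤ y.w := by
          have h5 := step_le hW (Finset.notMem_erase e y.K) h1 h
          rw [Finset.insert_erase hey] at h5
          exact h5
        exact ⟨z, ⟨h2, by omega⟩, Finset.notMem_erase e y.K, (Finset.insert_erase hey).symm, rfl,
          by omega⟩
    have hBiff : (∃ z : Cfg mate, (e ∉ x.K ∧ z.K = insert e x.K ∧ z.f = x.f ∧ z.w = x.w) ∧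
        (LP t z y ∧ y.w = z.w + 2)) ↔ x.f (e, 0) = x.f (e, 2) := by
      constructor
      · rintro ⟨z, ⟨_, h3, h4, _⟩, _⟩
        have h6 : Inv mate z.K x.f := h4 ▸ z.inv
        have h7 : e ∈ z.K := h3 ▸ Finset.mem_insert_self e x.K
        exact (inv_const h6 x.inv h7 hex 2).symm
      · intro h
        have h1 : Inv mate (insert e x.K) x.f := by
          apply inv_congr x.inv
          intro e' he'
          by_cases h2 : e' = e
          · rw [h2]
            exact h
          · exfalso
            rw [Finset.mem_insert] at he'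
            simp only [h2, false_or] at he'
            exact (iff_not_self he').elim
        let z : Cfg mate := ⟨insert e x.K, x.f, h1⟩
        have h2 : LP t z y := by
          refine ⟨?_, hf, ?_⟩
          · intro a ha
            rcases Finset.mem_insert.1 ha with h3 | h3
            · rw [h3]
              exact hey
            · exact hK h3
          · intro e' h3 h4
            exact hG e' h3 (fun h5 => h4 (Finset.mem_insert_of_mem h5))
              (fun h5 => h4 (h5 ▸ Finset.mem_insert_self e x.K))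
        have h3 : z.w + 2 ≤ y.w := hD.two t z y h2 hxy
        have h4 : x.w ≤ z.w := step_le hW hex x.inv h
        exact ⟨z, ⟨hex, rfl, rfl, by omega⟩, h2, by omega⟩
    rw [if_congr hAiff rfl rfl, if_congr hBiff rfl rfl, if_congr (cnd_values t x y e) rfl rfl,
      if_congr (cnd_values (ft t e) x y e) rfl rfl, ft_self]
    -- the local computation
    obtain ⟨a1, a2⟩ := x.inv.slots_not_mem hex
    obtain ⟨b1, b2⟩ := y.inv.slots_mem hey
    have h1 := hf (e, 0)
    have h2 := hf (e, 2)
    have h3 := hf (e, 1)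
    have h4 := hf (e, 3)
    rw [a2, b1] at h3
    rw [a1, b2] at h4
    revert h1 h2 h3 h4
    generalize x.f (e, 0) = p
    generalize x.f (e, 2) = q
    generalize y.f (e, 0) = r
    generalize y.f (e, 2) = s
    generalize t e = b
    revert p q r s b
    decide

end Pool.Agent.Y43.SZ
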