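import Pool.Agent.Y43.SZ.Lcj

/-! Job SZ-LYC of helper465. -/

set_option autoImplicit false

namespace Pool.Agent.Y43.SZ

open Pool.Agent.Y465.SZ

section

variable {E : Type} [Fintype E] [DecidableEq E] {mate : E × Fin 4 → E × Fin 4}

/-- the local analysis at one crossing; `p q` are the labels of `x` at the ends 0 and 2, `r s` those
of `y`, `a c` those of `z`, `m` says whether the crossing is in `z.K`, `b = t e` -/
theorem local_ex : ∀ (b m p q r s a c : Bool),
    -- monotone: x ≤ z ≤ y at the four ends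
    (p = true → a = true) → (a = true → r = true) → (q = true → c = true) →
    (c = true → s = true) →
    (q = true → (if m then a else c) = true) → ((if m then a else c) = true → r = true) →
    (p = true → (if m then c else a) = true) → ((if m then c else a) = true → s = true) →
    -- the condition of the step
    (if m then
      -- `cnd t' x z`
      (if !b then q = false ∧ c = true ∧ p = a else p = false ∧ a = true ∧ q = c)
    else
      -- `cnd t z y`
      (if b then c = false ∧ s = true ∧ a = r else a = false ∧ r = true ∧ c = s)) →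
    -- conclusion, with the new labels at the four ends
    ((q || (r && !(if m then a else c))) = (p || (r && !a)) ∧
      (p || (s && !(if m then c else a))) = (q || (s && !c)) ∧
      (if b then q = false ∧ (q || (s && !c)) = true ∧ p = (p || (r && !a))
        else p = false ∧ (p || (r && !a)) = true ∧ q = (q || (s && !c)))) ∨
    ((p || (s && !(if m then c else a))) = (p || (r && !a)) ∧
      (q || (r && !(if m then a else c))) = (q || (s && !c)) ∧
      (if !b then (q || (s && !c)) = false ∧ s = true ∧ (p || (r && !a)) = r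
        else (p || (r && !a)) = false ∧ r = true ∧ (q || (s && !c)) = s)) := by
  intro b m p q r s a c
  cases b <;> cases m <;> cases p <;> cases q <;>
    simp only [Bool.not_true, Bool.not_false, if_true, Bool.false_eq_true, if_false] <;>
    revert r s a c <;> decide

/-- exchange of the order of the two steps -/
theorem exch (t t' : E → Bool) (ht : ∀ e, t' e = !t e) (x y z : Cfg mate) (h1 : LP t' x z)
    (h2 : LP t z y) : ∃ z' : Cfg mate, LP t x z' ∧ LP t' z' y ∧
      z'.f = fun h => x.f h || (y.f h && !z.f h) := by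
  classical
  rw [LP_iff] at h1 h2
  obtain ⟨hxz, fxz, c1⟩ := h1
  obtain ⟨hzy, fzy, c2⟩ := h2
  obtain ⟨F, hF⟩ : ∃ F : E × Fin 4 → Bool, F = fun h => x.f h || (y.f h && !z.f h) := ⟨_, rfl⟩
  -- the two alternatives
  have key : ∀ e ∈ y.K, e ∉ x.K →
      (F (e, 1) = F (e, 0) ∧ F (e, 3) = F (e, 2) ∧
        (if t e then x.f (e, 2) = false ∧ F (e, 2) = true ∧ x.f (e, 0) = F (e, 0)
          else x.f (e, 0) = false ∧ F (e, 0) = true ∧ x.f (e, 2) = F (e, 2))) ∨
      (F (e, 3) = F (e, 0) ∧ F (e, 1) = F (e, 2) ∧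
        (if t' e then F (e, 2) = false ∧ y.f (e, 2) = true ∧ F (e, 0) = y.f (e, 0)
          else F (e, 0) = false ∧ y.f (e, 0) = true ∧ F (e, 2) = y.f (e, 2))) := by
    intro e hey hex
    obtain ⟨a1, a2⟩ := x.inv.slots_not_mem hex
    obtain ⟨b1, b2⟩ := y.inv.slots_mem hey
    have hz : z.f (e, 1) = (if decide (e ∈ z.K) then z.f (e, 0) else z.f (e, 2)) ∧
        z.f (e, 3) = (if decide (e ∈ z.K) then z.f (e, 2) else z.f (e, 0)) := by
      by_cases hez : e ∈ z.K
      · obtain ⟨d1, d2⟩ := z.inv.slots_mem hez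
        simp only [hez, decide_true, if_true]
        exact ⟨d1, d2⟩
      · obtain ⟨d1, d2⟩ := z.inv.slots_not_mem hez
        simp only [hez, decide_false, Bool.false_eq_true, if_false]
        exact ⟨d2, d1⟩
    have hc : if decide (e ∈ z.K) then
        (if !t e then x.f (e, 2) = false ∧ z.f (e, 2) = true ∧ x.f (e, 0) = z.f (e, 0)
          else x.f (e, 0) = false ∧ z.f (e, 0) = true ∧ x.f (e, 2) = z.f (e, 2))
        else
        (if t e then z.f (e, 2) = false ∧ y.f (e, 2) = true ∧ z.f (e, 0) = y.f (e, 0)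
          else z.f (e, 0) = false ∧ y.f (e, 0) = true ∧ z.f (e, 2) = y.f (e, 2)) := by
      by_cases hez : e ∈ z.K
      · have h3 := (cnd_values t' x z e).1 (c1 e hez hex)
        rw [ht] at h3
        simp only [hez, decide_true, if_true]
        exact h3
      · have h3 := (cnd_values t z y e).1 (c2 e hey hez)
        simp only [hez, decide_false, Bool.false_eq_true, if_false]
        exact h3
    have m0 := fxz (e, 0)
    have m0' := fzy (e, 0)
    have m2 := fxz (e, 2)
    have m2' := fzy (e, 2)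
    have m1 := fxz (e, 1)
    have m1' := fzy (e, 1)
    have m3 := fxz (e, 3)
    have m3' := fzy (e, 3)
    rw [hz.1] at m1 m1'
    rw [hz.2] at m3 m3'
    rw [a2] at m1
    rw [a1] at m3
    rw [b1] at m1'
    rw [b2] at m3'
    have h5 := local_ex (t e) (decide (e ∈ z.K)) (x.f (e, 0)) (x.f (e, 2)) (y.f (e, 0))
      (y.f (e, 2)) (z.f (e, 0)) (z.f (e, 2)) m0 m0' m2 m2' m1 m1' m3 m3' hc
    rw [hF]
    rw [ht e]
    simp only [a1, a2, b1, b2, hz.1, hz.2]
    exact h5
  let C : E → Prop := fun e => F (e, 1) = F (e, 0) ∧ F (e, 3) = F (e, 2) ∧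
        (if t e then x.f (e, 2) = false ∧ F (e, 2) = true ∧ x.f (e, 0) = F (e, 0)
          else x.f (e, 0) = false ∧ F (e, 0) = true ∧ x.f (e, 2) = F (e, 2))
  let K' : Finset E := x.K ∪ (y.K \ x.K).filter C
  have hmem : ∀ e, e ∈ K' ↔ e ∈ x.K ∨ ((e ∈ y.K ∧ e ∉ x.K) ∧ C e) := by
    intro e
    rw [Finset.mem_union, Finset.mem_filter, Finset.mem_sdiff]
  have hinv : Inv mate K' F := by
    rw [inv_iff]
    constructor
    · intro h
      rw [hF]
      show (x.f (mate h) || (y.f (mate h) && !z.f (mate h))) = (x.f h || (y.f h && !z.f h))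
      rw [x.inv.1, y.inv.1, z.inv.1]
    · intro e
      have hFe : ∀ i, F (e, i) = (x.f (e, i) || (y.f (e, i) && !z.f (e, i))) := by
        intro i
        rw [hF]
      by_cases hex : e ∈ x.K
      · obtain ⟨a1, a2⟩ := x.inv.slots_mem hex
        obtain ⟨b1, b2⟩ := y.inv.slots_mem (hzy (hxz hex))
        obtain ⟨d1, d2⟩ := z.inv.slots_mem (hxz hex)
        refine ⟨fun _ => ⟨?_, ?_⟩, fun h => absurd ((hmem e).2 (Or.inl hex)) h⟩
        · rw [hFe, hFe, a1, b1, d1]
        · rw [hFe, hFe, a2, b2, d2]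
      · by_cases hey : e ∈ y.K
        · constructor
          · intro h
            have h3 := (((hmem e).1 h).resolve_left hex).2
            exact ⟨h3.1, h3.2.1⟩
          · intro h
            have h3 : ¬ C e := fun h4 => h ((hmem e).2 (Or.inr ⟨⟨hey, hex⟩, h4⟩))
            have h4 := (key e hey hex).resolve_left h3
            exact ⟨h4.1, h4.2.1⟩
        · obtain ⟨a1, a2⟩ := x.inv.slots_not_mem hex
          obtain ⟨b1, b2⟩ := y.inv.slots_not_mem hey
          obtain ⟨d1, d2⟩ := z.inv.slots_not_mem (fun h => hey (hzy h))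
          refine ⟨fun h => ?_, fun _ => ⟨?_, ?_⟩⟩
          · rcases (hmem e).1 h with h3 | h3
            · exact absurd h3 hex
            · exact absurd h3.1.1 hey
          · rw [hFe, hFe, a1, b1, d1]
          · rw [hFe, hFe, a2, b2, d2]
  refine ⟨⟨K', F, hinv⟩, ?_, ?_, hF⟩
  · rw [LP_iff]
    refine ⟨Finset.subset_union_left, ?_, ?_⟩
    · intro h hh
      show F h = true
      rw [hF]
      simp [hh]
    · intro e he hex
      rw [cnd_values]
      have h3 := (((hmem e).1 he).resolve_left hex).2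
      exact h3.2.2
  · rw [LP_iff]
    refine ⟨?_, ?_, ?_⟩
    · intro e he
      rcases (hmem e).1 he with h3 | h3
      · exact hzy (hxz h3)
      · exact h3.1.1
    · intro h hh
      have h3 : F h = true := hh
      rw [hF] at h3
      have h4 : (x.f h || (y.f h && !z.f h)) = true := h3
      rw [Bool.or_eq_true, Bool.and_eq_true] at h4
      rcases h4 with h4 | h4
      · exact fzy h (fxz h h4)
      · exact h4.1
    · intro e hey he
      have hex : e ∉ x.K := fun h => he ((hmem e).2 (Or.inl h))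
      have h3 : ¬ C e := fun h4 => he ((hmem e).2 (Or.inr ⟨⟨hey, hex⟩, h4⟩))
      rw [cnd_values]
      exact ((key e hey hex).resolve_left h3).2.2

/-- the state is determined by the labels -/
theorem uniqK (t t' : E → Bool) (ht : ∀ e, t' e = !t e) (x y z w : Cfg mate) (h1 : LP t' x z)
    (h2 : LP t z y) (h3 : LP t' x w) (h4 : LP t w y) (hf : z.f = w.f) : z = w := by
  have main : ∀ z w : Cfg mate, LP t' x z → LP t z y → LP t' x w → LP t w y → z.f = w.f →
      z.K ⊆ w.K := by
    intro z w h1 h2 h3 h4 hf e hez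
    by_contra hew
    have hex : e ∉ x.K := fun h => hew (h3.1 h)
    have a1 := (cnd_values t' x z e).1 (((LP_iff t' x z).1 h1).2.2 e hez hex)
    have a2 := (cnd_values t w y e).1 (((LP_iff t w y).1 h4).2.2 e (h2.1 hez) hew)
    have h5 : Inv mate w.K z.f := hf ▸ w.inv
    have h6 := inv_const z.inv h5 hez hew 2
    rw [ht] at a1
    rw [← hf] at a2
    cases hb : t e
    · rw [hb] at a1 a2
      simp only [Bool.not_false, if_true, Bool.false_eq_true, if_false] at a1 a2
      rw [a1.2.1, a2.1] at h6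
      exact absurd h6 (by simp)
    · rw [hb] at a1 a2
      simp only [Bool.not_true, if_true, Bool.false_eq_true, if_false] at a1 a2
      rw [a1.2.1, a2.1] at h6
      exact absurd h6 (by simp)
  exact Cfg.ext (Finset.Subset.antisymm (main z w h1 h2 h3 h4 hf) (main w z h3 h4 h1 h2 hf.symm)) hf

/-- one step with marked points -/
def St (t : E → Bool) (c : Finset (E × Fin 4)) (x y : Cfg mate) : Prop :=
  (LP t x y ∧ y.w = x.w + 2) ∧ ∀ i ∈ c, x.f i = false ∧ y.f i = true

omit [Fintype E] in
theorem ne_of_step (t : E → Bool) (x y : Cfg mate) (h : LP t x y) (hw : y.w = x.w + 2) :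
    ∃ a, x.f a = false ∧ y.f a = true := by
  by_contra hn
  push Not at hn
  have h1 : x.f = y.f := by
    funext a
    have h2 := hn a
    have h3 := h.2.1 a
    revert h2 h3
    cases x.f a <;> cases y.f a <;> simp
  have h2 : x = y := Cfg.ext (LP_eq t x y h h1) h1
  rw [h2] at hw
  omega

theorem exchSt (hD : DEG mate) (t t' : E → Bool) (ht : ∀ e, t' e = !t e)
    (c c' : Finset (E × Fin 4)) (x y z : Cfg mate) (h1 : St t' c' x z) (h2 : St t c z y) :
    ∃ z' : Cfg mate, (St t c x z' ∧ St t' c' z' y) ∧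
      z'.f = fun h => x.f h || (y.f h && !z.f h) := by
  obtain ⟨⟨h1, w1⟩, l1⟩ := h1
  obtain ⟨⟨h2, w2⟩, l2⟩ := h2
  obtain ⟨z', h3, h4, hf⟩ := exch t t' ht x y z h1 h2
  obtain ⟨a, ha, ha'⟩ := ne_of_step t' x z h1 w1
  obtain ⟨b, hb, hb'⟩ := ne_of_step t z y h2 w2
  have hxb : x.f b = false := by
    by_contra h
    rw [Bool.not_eq_false] at h
    rw [h1.2.1 b h] at hb
    exact absurd hb (by simp)
  have hza : z'.f a = false := by
    rw [hf]
    simp [ha, ha']
  have hzb : z'.f b = true := by
    rw [hf]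
    simp [hb, hb']
  have hya : y.f a = true := h2.2.1 a ha'
  have w3 : x.w + 2 ≤ z'.w := hD.two t x z' h3 (fun h => by
    rw [h, hzb] at hxb
    exact absurd hxb (by simp))
  have w4 : z'.w + 2 ≤ y.w := hD.two t' z' y h4 (fun h => by
    rw [h, hya] at hza
    exact absurd hza (by simp))
  refine ⟨z', ⟨⟨⟨h3, by omega⟩, ?_⟩, ⟨⟨h4, by omega⟩, ?_⟩⟩, hf⟩
  · intro i hi
    obtain ⟨d1, d2⟩ := l2 i hi
    have d3 : x.f i = false := by
      by_contra h
      rw [Bool.not_eq_false] at h
      rw [h1.2.1 i h] at d1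
      exact absurd d1 (by simp)
    refine ⟨d3, ?_⟩
    rw [hf]
    simp [d1, d2]
  · intro i hi
    obtain ⟨d1, d2⟩ := l1 i hi
    refine ⟨?_, h2.2.1 i d2⟩
    rw [hf]
    simp [d1, d2]

theorem card_le (hD : DEG mate) (t t' : E → Bool) (ht : ∀ e, t' e = !t e)
    (c c' : Finset (E × Fin 4)) (x y : Cfg mate)
    [DecidablePred fun z : Cfg mate => St t' c' x z ∧ St t c z y]
    [DecidablePred fun z : Cfg mate => St t c x z ∧ St t' c' z y] :
    (Finset.univ.filter fun z : Cfg mate => St t' c' x z ∧ St t c z y).card ≤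
      (Finset.univ.filter fun z : Cfg mate => St t c x z ∧ St t' c' z y).card := by
  classical
  have h : ∀ z : Cfg mate, ∃ z' : Cfg mate, St t' c' x z ∧ St t c z y →
      (St t c x z' ∧ St t' c' z' y) ∧ z'.f = fun h => x.f h || (y.f h && !z.f h) := by
    intro z
    by_cases h : St t' c' x z ∧ St t c z y
    · obtain ⟨z', hz'⟩ := exchSt hD t t' ht c c' x y z h.1 h.2
      exact ⟨z', fun _ => hz'⟩
    · exact ⟨z, fun h' => absurd h' h⟩
  choose Φ hΦ using h
  apply Finset.card_le_card_of_injOn Φ
  · intro z hz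
    exact Finset.mem_coe.2 (Finset.mem_filter.2 ⟨Finset.mem_univ _,
      (hΦ z (Finset.mem_filter.1 (Finset.mem_coe.1 hz)).2).1⟩)
  · intro z hz w hw he
    have hz1 := (Finset.mem_filter.1 (Finset.mem_coe.1 hz)).2
    have hw1 := (Finset.mem_filter.1 (Finset.mem_coe.1 hw)).2
    have h1 := (hΦ z hz1).2
    have h2 := (hΦ w hw1).2
    apply uniqK t t' ht x y z w hz1.1.1.1 hz1.2.1.1 hw1.1.1.1 hw1.2.1.1
    funext a
    have h3 : (x.f a || (y.f a && !z.f a)) = (x.f a || (y.f a && !w.f a)) := by
      have h4 := congrFun h1 a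
      have h5 := congrFun h2 a
      rw [he] at h4
      exact h4.symm.trans h5
    have m1 := hz1.1.1.1.2.1 a
    have m2 := hz1.2.1.1.2.1 a
    have m3 := hw1.1.1.1.2.1 a
    have m4 := hw1.2.1.1.2.1 a
    revert h3 m1 m2 m3 m4
    generalize x.f a = p
    generalize y.f a = q
    generalize z.f a = r
    generalize w.f a = s
    revert p q r s
    decide

theorem comm_St (hD : DEG mate) (t t' : E → Bool) (ht : ∀ e, t' e = !t e)
    (c c' : Finset (E × Fin 4)) :
    (ind (St t c) * ind (St t' c') : Op mate) = ind (St t' c') * ind (St t c) := by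
  classical
  ext y x
  rw [ind_mul_apply, ind_mul_apply]
  congr 1
  apply le_antisymm
  · exact card_le hD t t' ht c c' x y
  · exact card_le hD t' t (fun e => by rw [ht, Bool.not_not]) c' c x y

omit [Fintype E] in
theorem ind_congr {p q : Cfg mate → Cfg mate → Prop} (h : ∀ x y, p x y ↔ q x y) :
    (ind p : Op mate) = ind q := by
  have : p = q := by
    funext x y
    exact propext (h x y)
  rw [this]

omit [Fintype E] in
theorem L0_eq (t : E → Bool) : (L0 t : Op mate) = ind (St t ∅) :=
  ind_congr fun _ _ => ⟨fun h => ⟨h, fun i hi => absurd hi (Finset.notMem_empty i)⟩, fun h => h.1⟩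

omit [Fintype E] in
theorem LL_eq (t : E → Bool) (j : E × Fin 4) : (LL t j : Op mate) = ind (St t {j}) :=
  ind_congr fun _ _ => ⟨fun h => ⟨h.1, fun i hi => by
    rw [Finset.mem_singleton.1 hi]
    exact h.2⟩, fun h => ⟨h.1, h.2 j (Finset.mem_singleton_self j)⟩⟩

end

theorem lyc : S_LYC := by
  intro E _ _ mate hD t j
  constructor
  · rw [L0_eq, LL_eq]
    exact comm_St hD t (fun e => !t e) (fun _ => rfl) ∅ {j}
  · intro i
    rw [LL_eq, LL_eq]
    exact comm_St hD t (fun e => !t e) (fun _ => rfl) {i} {j}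

end Pool.Agent.Y43.SZ
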