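import Pool.Agent.Y43.SZ.Top

/-! Job SZ-ORI of helper465. -/

set_option autoImplicit false

namespace Pool.Agent.Y43.SZ

open Pool.Agent.Y465.SZ

section

variable {E : Type} [Fintype E] [DecidableEq E] {mate : E × Fin 4 → E × Fin 4}
  {col : E × Fin 4 → Bool}

theorem tau_tau (K : Finset E) (h : E × Fin 4) : tau K (tau K h) = h := by
  obtain ⟨e, i⟩ := h
  by_cases he : e ∈ K
  · rw [tau_mem he, tau_mem he]
    fin_cases i <;> rfl
  · rw [tau_not_mem he, tau_not_mem he]
    fin_cases i <;> rfl

theorem col_tau (hca : ∀ e i, col (e, i + 1) = !col (e, i)) (K : Finset E) (h : E × Fin 4) :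
    col (tau K h) = !col h := by
  obtain ⟨e, i⟩ := h
  have c1 : col (e, 1) = !col (e, 0) := hca e 0
  have c2 : col (e, 2) = !col (e, 1) := hca e 1
  have c3 : col (e, 3) = !col (e, 2) := hca e 2
  have c2' : col (e, 2) = col (e, 0) := by rw [c2, c1, Bool.not_not]
  have c3' : col (e, 3) = !col (e, 0) := by rw [c3, c2']
  by_cases he : e ∈ K
  · rw [tau_mem he]
    fin_cases i
    · exact c1
    · show col (e, 0) = !col (e, 1)
      rw [c1, Bool.not_not]
    · exact c3
    · show col (e, 2) = !col (e, 3)
      rw [c3, Bool.not_not]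
  · rw [tau_not_mem he]
    fin_cases i
    · exact c3'
    · show col (e, 2) = !col (e, 1)
      exact c2
    · show col (e, 1) = !col (e, 2)
      rw [c2, Bool.not_not]
    · show col (e, 0) = !col (e, 3)
      rw [c3', Bool.not_not]

/-- the two pairings at the crossing differ by a transposition -/
theorem tau_tog (hca : ∀ e i, col (e, i + 1) = !col (e, i)) (K : Finset E) (e : E)
    (h : E × Fin 4) (hh : col h = !col (e, 0)) :
    tau (tog K e) h = Equiv.swap (e, (0 : Fin 4)) (e, 2) (tau K h) := by
  obtain ⟨g, i⟩ := h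
  have c1 : col (e, 1) = !col (e, 0) := hca e 0
  have c2 : col (e, 2) = !col (e, 1) := hca e 1
  have c2' : col (e, 2) = col (e, 0) := by rw [c2, c1, Bool.not_not]
  by_cases hg : g = e
  · subst hg
    by_cases he : g ∈ K
    · have he' : g ∉ tog K g := by
        rw [mem_tog]
        simp [he]
      rw [tau_mem he, tau_not_mem he']
      fin_cases i
      · exact absurd hh (by simp)
      · show (g, (2 : Fin 4)) = Equiv.swap (g, (0 : Fin 4)) (g, 2) (g, 0)
        rw [Equiv.swap_apply_left]
      · exact absurd (c2'.symm.trans hh) (by simp)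
      · show (g, (0 : Fin 4)) = Equiv.swap (g, (0 : Fin 4)) (g, 2) (g, 2)
        rw [Equiv.swap_apply_right]
    · have he' : g ∈ tog K g := by
        rw [mem_tog]
        simp [he]
      rw [tau_not_mem he, tau_mem he']
      fin_cases i
      · exact absurd hh (by simp)
      · show (g, (0 : Fin 4)) = Equiv.swap (g, (0 : Fin 4)) (g, 2) (g, 2)
        rw [Equiv.swap_apply_right]
      · exact absurd (c2'.symm.trans hh) (by simp)
      · show (g, (2 : Fin 4)) = Equiv.swap (g, (0 : Fin 4)) (g, 2) (g, 0)
        rw [Equiv.swap_apply_left]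
  · have h1 : tau (tog K e) (g, i) = tau K (g, i) := by
      by_cases he : g ∈ K
      · have he' : g ∈ tog K e := by
          rw [mem_tog]
          exact Or.inr ⟨hg, he⟩
        rw [tau_mem he, tau_mem he']
      · have he' : g ∉ tog K e := by
          rw [mem_tog]
          rintro (⟨h1, _⟩ | ⟨_, h1⟩)
          · exact hg h1
          · exact he h1
        rw [tau_not_mem he, tau_not_mem he']
    rw [h1]
    have h2 : (tau K (g, i)).1 = g := rfl
    rw [Equiv.swap_apply_of_ne_of_ne]
    · intro h3
      rw [h3] at h2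
      exact hg h2.symm
    · intro h3
      rw [h3] at h2
      exact hg h2.symm

/-- a labelling from a subset of the positive half-edges invariant under `tau ∘ mate` -/
theorem inv_of_orbit (hmm : ∀ h, mate (mate h) = h) (hcm : ∀ h, col (mate h) = !col h)
    (hca : ∀ e i, col (e, i + 1) = !col (e, i)) (K : Finset E) (c0 : Bool)
    (P : E × Fin 4 → Prop) [DecidablePred P]
    (hP : ∀ x, col x = c0 → (P (tau K (mate x)) ↔ P x)) :
    Inv mate K (fun h => if col h = c0 then decide (P h) else decide (P (mate h))) := by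
  constructor
  · intro h
    show (if col (mate h) = c0 then decide (P (mate h)) else decide (P (mate (mate h)))) =
      (if col h = c0 then decide (P h) else decide (P (mate h)))
    rw [hcm, hmm]
    by_cases hc : col h = c0
    · rw [if_neg (by rw [hc]; simp), if_pos hc]
    · rw [if_neg hc, if_pos (by revert hc; cases col h <;> cases c0 <;> simp)]
  · intro h
    show (if col (tau K h) = c0 then decide (P (tau K h)) else decide (P (mate (tau K h)))) =
      (if col h = c0 then decide (P h) else decide (P (mate h)))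
    rw [col_tau hca]
    by_cases hc : col h = c0
    · rw [if_neg (by rw [hc]; simp), if_pos hc]
      have h1 := hP (mate (tau K h)) (by rw [hcm, col_tau hca, hc, Bool.not_not])
      rw [hmm, tau_tau] at h1
      exact decide_eq_decide.2 h1.symm
    · have hc' : (!col h) = c0 := by revert hc; cases col h <;> cases c0 <;> simp
      rw [if_neg hc, if_pos hc']
      have h1 := hP (mate h) (by rw [hcm, hc'])
      rw [hmm] at h1
      exact decide_eq_decide.2 h1

end

theorem ori : S_ORI := by
  intro E _ _ mate col hmm hcm hca K e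
  classical
  constructor
  · -- (b)
    intro hT hK
    have c1 : col (e, 1) = !col (e, 0) := hca e 0
    have c2 : col (e, 2) = !col (e, 1) := hca e 1
    have c2' : col (e, 2) = col (e, 0) := by rw [c2, c1, Bool.not_not]
    obtain ⟨c0, hc0⟩ : ∃ c0, col (e, 0) = c0 := ⟨_, rfl⟩
    let a : E × Fin 4 := (e, 0)
    let b : E × Fin 4 := (e, 2)
    have hab : b ≠ a := by
      intro h
      have h1 : (2 : Fin 4) = 0 := congrArg Prod.snd h
      exact absurd h1 (by decide)
    let ρ : Equiv.Perm (E × Fin 4) :=
      (Function.Involutive.toPerm mate hmm).trans (Function.Involutive.toPerm (tau K) (tau_tau K))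
    have hρ : ∀ x, ρ x = tau K (mate x) := fun x => rfl
    -- the orbit of `b`
    have hQ : ∀ x, col x = c0 → ((∃ n : ℕ, (ρ ^ n) b = tau K (mate x)) ↔
        ∃ n : ℕ, (ρ ^ n) b = x) := by
      intro x _
      constructor
      · rintro ⟨n, hn⟩
        have h1 : ∃ m : ℕ, (ρ ^ (m + 1)) b = ρ x := by
          rcases n with _ | n
          · refine ⟨orderOf ρ - 1, ?_⟩
            rw [Nat.sub_add_cancel (orderOf_pos ρ), pow_orderOf_eq_one]
            exact hn
          · exact ⟨n, hn⟩
        obtain ⟨m, hm⟩ := h1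
        refine ⟨m, ρ.injective ?_⟩
        rw [← hm, pow_succ', Equiv.Perm.mul_apply]
      · rintro ⟨n, hn⟩
        refine ⟨n + 1, ?_⟩
        rw [pow_succ', Equiv.Perm.mul_apply, hn]
        rfl
    have hex : ∃ n : ℕ, 0 < n ∧ (ρ ^ n) b = a := by
      have h1 := hK _ (inv_of_orbit hmm hcm hca K c0 (fun x => ∃ n : ℕ, (ρ ^ n) b = x) hQ)
      have h2 : (if col (e, 0) = c0 then decide (∃ n : ℕ, (ρ ^ n) b = (e, 0)) else
        decide (∃ n : ℕ, (ρ ^ n) b = mate (e, 0))) =
        (if col (e, 2) = c0 then decide (∃ n : ℕ, (ρ ^ n) b = (e, 2)) else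
        decide (∃ n : ℕ, (ρ ^ n) b = mate (e, 2))) := h1
      rw [if_pos hc0, if_pos (c2'.trans hc0), decide_eq_decide] at h2
      obtain ⟨n, hn⟩ := h2.2 ⟨0, rfl⟩
      refine ⟨n, ?_, hn⟩
      rcases Nat.eq_zero_or_pos n with h0 | h0
      · rw [h0] at hn
        exact absurd hn hab
      · exact h0
    have hj := Nat.find_spec hex
    have hmin : ∀ i, i < Nat.find hex → 0 < i → (ρ ^ i) b ≠ a := fun i hi h0 h =>
      Nat.find_min hex hi ⟨h0, h⟩
    generalize Nat.find hex = j at hj hmin
    obtain ⟨hj0, hja⟩ := hj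
    have hnb : ∀ i, i < j → 0 < i → (ρ ^ i) b ≠ b := by
      intro i hi h0 h
      have h1 : (ρ ^ (j - i)) b = a := by
        rw [← hja]
        conv_rhs => rw [← Nat.sub_add_cancel hi.le, pow_add, Equiv.Perm.mul_apply, h]
      exact hmin (j - i) (by omega) (by omega) h1
    -- the new labelling
    have hstep : ∀ x, col x = c0 → tau (tog K e) (mate x) = Equiv.swap a b (ρ x) := by
      intro x hx
      rw [tau_tog hca K e (mate x) (by rw [hcm, hx, hc0])]
      rfl
    have hR : ∀ x, col x = c0 → ((∃ i : ℕ, i < j ∧ (ρ ^ i) b = tau (tog K e) (mate x)) ↔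
        ∃ i : ℕ, i < j ∧ (ρ ^ i) b = x) := by
      intro x hx
      rw [hstep x hx]
      constructor
      · rintro ⟨i, hi, h⟩
        rcases Nat.eq_zero_or_pos i with rfl | h0
        · have h1 : ρ x = a := by
            have h2 : Equiv.swap a b (Equiv.swap a b (ρ x)) = Equiv.swap a b b := by
              rw [← h]
              rfl
            rw [Equiv.swap_apply_self, Equiv.swap_apply_right] at h2
            exact h2
          refine ⟨j - 1, by omega, ρ.injective ?_⟩
          rw [h1, ← hja, ← Equiv.Perm.mul_apply, ← pow_succ', Nat.sub_add_cancel hj0]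
        · have h1 : ρ x = (ρ ^ i) b := by
            have h2 : Equiv.swap a b (Equiv.swap a b (ρ x)) = Equiv.swap a b ((ρ ^ i) b) := by
              rw [← h]
            rw [Equiv.swap_apply_self, Equiv.swap_apply_of_ne_of_ne (hmin i hi h0) (hnb i hi h0)]
              at h2
            exact h2
          refine ⟨i - 1, by omega, ρ.injective ?_⟩
          rw [h1, ← Equiv.Perm.mul_apply, ← pow_succ', Nat.sub_add_cancel h0]
      · rintro ⟨i, hi, rfl⟩
        have h0 : ρ ((ρ ^ i) b) = (ρ ^ (i + 1)) b := by
          rw [pow_succ', Equiv.Perm.mul_apply]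
        rw [h0]
        rcases Nat.lt_or_ge (i + 1) j with h | h
        · exact ⟨i + 1, h, by
            rw [Equiv.swap_apply_of_ne_of_ne (hmin _ h (by omega)) (hnb _ h (by omega))]⟩
        · have h1 : i + 1 = j := by omega
          refine ⟨0, hj0, ?_⟩
          rw [h1, hja, Equiv.swap_apply_left]
          rfl
    have h1 := hT _ (inv_of_orbit hmm hcm hca (tog K e) c0
      (fun x => ∃ i : ℕ, i < j ∧ (ρ ^ i) b = x) hR)
    have h2 : (if col (e, 0) = c0 then decide (∃ i : ℕ, i < j ∧ (ρ ^ i) b = (e, 0)) else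
        decide (∃ i : ℕ, i < j ∧ (ρ ^ i) b = mate (e, 0))) =
        (if col (e, 2) = c0 then decide (∃ i : ℕ, i < j ∧ (ρ ^ i) b = (e, 2)) else
        decide (∃ i : ℕ, i < j ∧ (ρ ^ i) b = mate (e, 2))) := h1
    rw [if_pos hc0, if_pos (c2'.trans hc0), decide_eq_decide] at h2
    obtain ⟨i, hi, h⟩ := h2.2 ⟨0, hj0, rfl⟩
    rcases Nat.eq_zero_or_pos i with rfl | h0
    · exact hab h
    · exact hmin i hi h0 h
  · -- (a)
    intro hK
    unfold Same at hK
    push Not at hK
    obtain ⟨f, hf, hne⟩ := hK
    intro g hg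
    by_contra hgne
    have h1 := osg E mate col hmm hcm hca K (tog K e) f g hf hg
    have h2 : symmDiff K (tog K e) = {e} := by
      ext x
      rw [Finset.mem_symmDiff, mem_tog, Finset.mem_singleton]
      by_cases hx : x = e
      · subst hx
        by_cases hxK : x ∈ K <;> simp [hxK]
      · by_cases hxK : x ∈ K <;> simp [hxK, hx]
    rw [h2, Finset.sum_singleton] at h1
    have h3 : ∀ p q : Bool, p ≠ q → bz q - bz p ≠ 0 := by
      intro p q
      cases p <;> cases q <;> simp [bz]
    have h4 : (if col (e, 0) = true then (1 : ℤ) else -1) ≠ 0 := by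
      split_ifs <;> norm_num
    exact mul_ne_zero (mul_ne_zero h4 (h3 _ _ hne)) (h3 _ _ hgne) h1

end Pool.Agent.Y43.SZ
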