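import Pool.Agent.Y465.SZ.Stm

/-! Jobs SZ-OSG, SZ-JOI and SZ-CN of helper465. -/

set_option autoImplicit false

namespace Pool.Agent.Y43.SZ

open Pool.Agent.Y465.SZ

theorem osg : S_OSG := by
  intro E _ _ mate col hmm hcm hca K K' u v hu hv
  have hS : ∑ h : E × Fin 4, (if col h then (1 : ℤ) else -1) * bz (u h) * bz (v h) = 0 := by
    have h1 : ∑ h : E × Fin 4, (if col h then (1 : ℤ) else -1) * bz (u h) * bz (v h) =
        ∑ h : E × Fin 4, (if col (mate h) then (1 : ℤ) else -1) * bz (u (mate h)) *
          bz (v (mate h)) :=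
      (Equiv.sum_comp (Function.Involutive.toPerm mate hmm)
        (fun h => (if col h then (1 : ℤ) else -1) * bz (u h) * bz (v h))).symm
    have h2 : ∀ h : E × Fin 4, (if col (mate h) then (1 : ℤ) else -1) * bz (u (mate h)) *
          bz (v (mate h)) = -((if col h then (1 : ℤ) else -1) * bz (u h) * bz (v h)) := by
      intro h
      rw [hu.1, hv.1, hcm]
      cases col h <;> simp
    rw [Finset.sum_congr rfl fun h _ => h2 h, Finset.sum_neg_distrib] at h1
    linarith
  rw [Fintype.sum_prod_type] at hS
  have hg : ∀ g : E, ∑ i : Fin 4, (if col (g, i) then (1 : ℤ) else -1) * bz (u (g, i)) *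
      bz (v (g, i)) = if g ∈ symmDiff K K' then (if col (g, 0) then (1 : ℤ) else -1) *
        (bz (u (g, 2)) - bz (u (g, 0))) * (bz (v (g, 2)) - bz (v (g, 0))) else 0 := by
    intro g
    have c1 : col (g, 1) = !col (g, 0) := hca g 0
    have c2 : col (g, 2) = !col (g, 1) := hca g 1
    have c3 : col (g, 3) = !col (g, 2) := hca g 2
    have hn : ∀ b : Bool, (if (!b) then (1 : ℤ) else -1) = -(if b then (1 : ℤ) else -1) := by
      intro b
      cases b <;> simp
    rw [Fin.sum_univ_four, c3, c2, c1]
    obtain ⟨s, hs⟩ : ∃ s : Bool → ℤ, (fun b : Bool => if b then (1 : ℤ) else -1) = s := ⟨_, rfl⟩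
    have hs' : ∀ b : Bool, (if b = true then (1 : ℤ) else -1) = s b := fun b => congrFun hs b
    have hsn : ∀ b : Bool, s (!b) = - s b := by
      intro b
      rw [← hs', ← hs', hn]
    simp only [hs', hsn]
    by_cases hK : g ∈ K <;> by_cases hK' : g ∈ K'
    · obtain ⟨a1, a2⟩ := hu.slots_mem hK
      obtain ⟨b1, b2⟩ := hv.slots_mem hK'
      have hn' : ¬ g ∈ symmDiff K K' := by simp [Finset.mem_symmDiff, hK, hK']
      rw [if_neg hn', a1, a2, b1, b2]
      ring
    · obtain ⟨a1, a2⟩ := hu.slots_mem hK
      obtain ⟨b1, b2⟩ := hv.slots_not_mem hK'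
      have hn' : g ∈ symmDiff K K' := by simp [Finset.mem_symmDiff, hK, hK']
      rw [if_pos hn', a1, a2, b1, b2]
      ring
    · obtain ⟨a1, a2⟩ := hu.slots_not_mem hK
      obtain ⟨b1, b2⟩ := hv.slots_mem hK'
      have hn' : g ∈ symmDiff K K' := by simp [Finset.mem_symmDiff, hK, hK']
      rw [if_pos hn', a1, a2, b1, b2]
      ring
    · obtain ⟨a1, a2⟩ := hu.slots_not_mem hK
      obtain ⟨b1, b2⟩ := hv.slots_not_mem hK'
      have hn' : ¬ g ∈ symmDiff K K' := by simp [Finset.mem_symmDiff, hK, hK']
      rw [if_neg hn', a1, a2, b1, b2]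
      ring
  rw [Finset.sum_congr rfl fun g _ => hg g, Finset.sum_ite_mem, Finset.univ_inter] at hS
  exact hS

theorem mem_tog {E : Type} [DecidableEq E] {K : Finset E} {e x : E} :
    x ∈ tog K e ↔ (x = e ∧ e ∉ K) ∨ (x ≠ e ∧ x ∈ K) := by
  unfold tog
  split_ifs with h
  · rw [Finset.mem_erase]
    constructor
    · exact fun h1 => Or.inr h1
    · rintro (⟨_, h1⟩ | h1)
      · exact absurd h h1
      · exact h1
  · rw [Finset.mem_insert]
    constructor
    · rintro (rfl | h1)
      · exact Or.inl ⟨rfl, h⟩
      · by_cases hx : x = e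
        · exact Or.inl ⟨hx, h⟩
        · exact Or.inr ⟨hx, h1⟩
    · rintro (⟨rfl, _⟩ | ⟨_, h1⟩)
      · exact Or.inl rfl
      · exact Or.inr h1

/-- a labelling with equal values at the two ends is invariant for `K` iff for `tog K e` -/
theorem inv_tog {E : Type} [Fintype E] [DecidableEq E] {mate : E × Fin 4 → E × Fin 4}
    {K : Finset E} {e : E} {f : E × Fin 4 → Bool} (hf : f (e, 0) = f (e, 2)) :
    Inv mate (tog K e) f ↔ Inv mate K f := by
  constructor
  · intro h
    apply inv_congr h
    intro x hx
    by_cases hxe : x = e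
    · rw [hxe]
      exact hf
    · exfalso
      rw [mem_tog] at hx
      simp only [hxe, false_and, ne_eq, not_false_eq_true, true_and, false_or] at hx
      exact (iff_not_self hx).elim
  · intro h
    apply inv_congr h
    intro x hx
    by_cases hxe : x = e
    · rw [hxe]
      exact hf
    · exfalso
      rw [mem_tog] at hx
      simp only [hxe, false_and, ne_eq, not_false_eq_true, true_and, false_or] at hx
      exact (iff_not_self hx).elim

theorem joi : S_JOI := by
  intro E _ _ mate hO K e hK
  classical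
  have hT : Same mate (tog K e) (e, 0) (e, 2) := (hO K e).2 hK
  have hsub : ∀ f, Inv mate (tog K e) f → Inv mate K f := fun f hf =>
    (inv_tog (hT f hf)).1 hf
  refine ⟨hsub, fun x y => ⟨?_, ?_⟩⟩
  · intro hxy
    by_contra hn
    push Not at hn
    obtain ⟨h1, h2, h3⟩ := hn
    by_cases hx0 : Same mate K x (e, 0) ∨ Same mate K x (e, 2)
    · -- the union of the two circles
      have hf : Inv mate K (fun h' => decide (Same mate K (e, 0) h') ||
          decide (Same mate K (e, 2) h')) := (inv_class K (e, 0)).or (inv_class K (e, 2))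
      have hf' : Inv mate (tog K e) (fun h' => decide (Same mate K (e, 0) h') ||
          decide (Same mate K (e, 2) h')) := by
        refine (inv_tog ?_).2 hf
        simp [Same.refl]
      have h4 := hxy _ hf'
      have h5 : (decide (Same mate K (e, 0) x) || decide (Same mate K (e, 2) x)) = true := by
        rw [Bool.or_eq_true, decide_eq_true_eq, decide_eq_true_eq]
        rcases hx0 with h | h
        · exact Or.inl h.symm
        · exact Or.inr h.symm
      have h6 : (decide (Same mate K (e, 0) y) || decide (Same mate K (e, 2) y)) = true := by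
        rw [← h5]
        exact h4.symm
      rw [Bool.or_eq_true, decide_eq_true_eq, decide_eq_true_eq] at h6
      rcases hx0 with hx | hx <;> rcases h6 with hy | hy
      · exact h1 (hx.trans hy)
      · exact h2 hx hy.symm
      · exact h3 hx hy.symm
      · exact h1 (hx.trans hy)
    · push Not at hx0
      have hf : Inv mate K (fun h' => decide (Same mate K x h')) := inv_class K x
      have hf' : Inv mate (tog K e) (fun h' => decide (Same mate K x h')) := by
        refine (inv_tog ?_).2 hf
        simp [hx0.1, hx0.2]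
      have h4 := hxy _ hf'
      apply h1
      have h5 : decide (Same mate K x y) = true := by
        rw [← h4]
        simp [Same.refl]
      exact of_decide_eq_true h5
  · rintro (h | ⟨h, h'⟩ | ⟨h, h'⟩) f hf
    · exact h f (hsub f hf)
    · rw [h f (hsub f hf), h' f (hsub f hf)]
      exact hT f hf
    · rw [h f (hsub f hf), h' f (hsub f hf)]
      exact (hT f hf).symm

theorem cnt : S_CN := by
  intro E _ _ mate K g hg
  classical
  let C : Set (Set (E × Fin 4)) := {c | ∃ h, g h = true ∧ c = {h' | Same mate K h h'}}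
  let Φ : {f : E × Fin 4 → Bool // Inv mate K f ∧ ∀ h, f h = true → g h = true} → Set C :=
    fun f => {c | ∃ h ∈ c.1, f.1 h = true}
  have key : ∀ (f : E × Fin 4 → Bool), Inv mate K f → (∀ h, f h = true → g h = true) →
      ∀ (h : E × Fin 4) (hh : g h = true),
      ((⟨{h' | Same mate K h h'}, ⟨h, hh, rfl⟩⟩ : C) ∈ {c : C | ∃ h ∈ c.1, f h = true}) ↔
        f h = true := by
    intro f hf _ h hh
    constructor
    · rintro ⟨h', hh', hfh⟩
      rw [← hfh]
      exact hh' f hf
    · intro hfh
      exact ⟨h, Same.refl K h, hfh⟩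
  have hinj : Function.Injective Φ := by
    rintro ⟨f, hf, hfg⟩ ⟨f', hf', hfg'⟩ he
    have he' : {c : C | ∃ h ∈ c.1, f h = true} = {c : C | ∃ h ∈ c.1, f' h = true} := he
    apply Subtype.ext
    funext h
    rw [Bool.eq_iff_iff]
    constructor
    · intro hh
      rw [← key f' hf' hfg' h (hfg h hh), ← he', key f hf hfg h (hfg h hh)]
      exact hh
    · intro hh
      rw [← key f hf hfg h (hfg' h hh), he', key f' hf' hfg' h (hfg' h hh)]
      exact hh
  have hsurj : Function.Surjective Φ := by
    intro D
    have hmem : ∀ (c : C) (h h' : E × Fin 4), Same mate K h h' → (h ∈ c.1 ↔ h' ∈ c.1) := by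
      rintro ⟨_, h0, _, rfl⟩ h h' hs
      exact ⟨fun a => a.trans hs, fun a => a.trans hs.symm⟩
    have hmate : ∀ h, Same mate K (mate h) h := fun h f hf => hf.1 h
    have htau : ∀ h, Same mate K (tau K h) h := fun h f hf => hf.2 h
    let f : E × Fin 4 → Bool := fun h => decide (∃ c ∈ D, h ∈ c.1)
    have hf : Inv mate K f := by
      constructor
      · intro h
        show decide _ = decide _
        congr 1
        refine propext ⟨?_, ?_⟩
        · rintro ⟨c, hc, hh⟩
          exact ⟨c, hc, (hmem c _ _ (hmate h)).1 hh⟩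
        · rintro ⟨c, hc, hh⟩
          exact ⟨c, hc, (hmem c _ _ (hmate h)).2 hh⟩
      · intro h
        show decide _ = decide _
        congr 1
        refine propext ⟨?_, ?_⟩
        · rintro ⟨c, hc, hh⟩
          exact ⟨c, hc, (hmem c _ _ (htau h)).1 hh⟩
        · rintro ⟨c, hc, hh⟩
          exact ⟨c, hc, (hmem c _ _ (htau h)).2 hh⟩
    have hfg : ∀ h, f h = true → g h = true := by
      intro h hh
      obtain ⟨⟨_, h0, hg0, rfl⟩, _, hc⟩ := of_decide_eq_true hh
      rw [← hg0]
      exact (hc g hg).symm
    refine ⟨⟨f, hf, hfg⟩, ?_⟩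
    ext c
    show (∃ h ∈ c.1, f h = true) ↔ c ∈ D
    constructor
    · rintro ⟨h, hc, hh⟩
      obtain ⟨c', hc', hh'⟩ := of_decide_eq_true hh
      have : c = c' := by
        obtain ⟨_, h0, _, rfl⟩ := c
        obtain ⟨_, h1, _, rfl⟩ := c'
        apply Subtype.ext
        ext z
        have a : Same mate K h0 h := hc
        have b : Same mate K h1 h := hh'
        exact ⟨fun w => (b.trans a.symm).trans w, fun w => (a.trans b.symm).trans w⟩
      rw [this]
      exact hc'
    · intro hc
      obtain ⟨_, h0, hg0, rfl⟩ := c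
      exact ⟨h0, Same.refl K h0, decide_eq_true ⟨_, hc, Same.refl K h0⟩⟩
  rw [Nat.card_eq_of_bijective Φ ⟨hinj, hsurj⟩]
  have hfin : Finite C := inferInstance
  let _ := Fintype.ofFinite C
  rw [Nat.card_eq_fintype_card, Fintype.card_set, ← Nat.card_eq_fintype_card]
  rfl

end Pool.Agent.Y43.SZ
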